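import Pool.Agent.H.MP_9b97c3_lc.A

namespace Pool.Agent.Results.MP_9b97c3_lc.Counter

open Pool.Agent.H.MP_9b97c3_lc

theorem result (G H K : Type*) [Group G] [Group H] [Group K] [Countable G] [Countable H]
    [Countable K] [Infinite G] [Infinite H] :
    ¬ ∃ f : (H → G → Bool) → (K → Bool), Measurable f ∧
      ∀ x y, jump H (jump G (Eq : Bool → Bool → Prop)) x y ↔
        jump K (Eq : Bool → Bool → Prop) (f x) (f y) :=
  fun ⟨f, hf, h⟩ => main f hf h

end Pool.Agent.Results.MP_9b97c3_lc.Counter
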